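import Pool.Agent.Lib.MP_6adaea_nt.Main

/-!
Uniform boundedness of the rational torsion of Drinfeld modules of rank at most `r` over a fixed
finite extension of `F_q(T)`.
-/

namespace Pool.Agent.Lib.MP_6adaea_nt.Old.TorsionBound
open Polynomial

theorem kept (K : Type) [Field K] [Finite K] (L : Type) [Field L] [Algebra K L]
    [Algebra (RatFunc K) L] [IsScalarTower K (RatFunc K) L] [FiniteDimensional (RatFunc K) L]
    (r : ℕ) : ∃ B : ℕ, ∀ (g : ℕ → L) (φ : L →ₗ[K] L),
      (∀ x : L, φ x = algebraMap (RatFunc K) L RatFunc.X * x +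
        ∑ i ∈ Finset.Icc 1 r, g i * x ^ (Nat.card K ^ i)) →
      Set.encard {x : L | ∃ a : K[X], a ≠ 0 ∧ aeval φ a x = 0} ≤ B := by
  obtain ⟨p, hp⟩ := CharP.exists K
  have : Fact p.Prime := ⟨CharP.char_is_prime K p⟩
  have : CharP L p := charP_of_injective_algebraMap (algebraMap K L).injective p
  obtain ⟨P⟩ := Pool.Agent.Lib.MP_6adaea_nt.exists_psys K L p
  have hθ : Transcendental K (algebraMap (RatFunc K) L RatFunc.X) :=
    (transcendental_algebraMap_iff (algebraMap (RatFunc K) L).injective).mpr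
      RatFunc.transcendental_X
  obtain ⟨B, hB⟩ := Pool.Agent.Lib.MP_6adaea_nt.torsion_bound P _ hθ r
  exact ⟨B, fun g φ h => hB g φ fun x => by
    rw [h, Pool.Agent.Lib.MP_6adaea_nt.drP_eval]⟩

end Pool.Agent.Lib.MP_6adaea_nt.Old.TorsionBound
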